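import Pool.Agent.W517.Gr.Local

set_option autoImplicit false

namespace Pool.Agent.Results.MP_2e24f1_ag.Rank8Counterexample

open Pool.Agent.W517.Gr

/-- **Griffiths' conjecture on the positivity of Chern and Schur forms is false.**

There are an open set `X ⊆ ℂ⁸` containing `0` and a smooth Hermitian metric `h` on the trivial
holomorphic vector bundle `E = X × ℂ⁸` such that `(E, h)` is Griffiths positive at every point of
`X`, while the Chern form `c_8(E, h)`, which is the Schur form of the partition `(8, 0, …, 0)`, is
not positive at the point `0`: this form of top degree takes a negative real value on the positively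
oriented real frame `(e_1, i e_1, …, e_8, i e_8)` of the tangent space. -/
theorem result : ∃ (X : Set (Cn 8)) (h : Cn 8 → Matrix (Fin 8) (Fin 8) ℂ),
    IsOpen X ∧ (0 : Cn 8) ∈ X ∧ IsMetricOn X h ∧ (∀ z ∈ X, GriffithsPositiveAt h z) ∧
    ¬ IsPositiveForm 8 (chernForm h 8 0) ∧
    (evalForm (realFrame fun i : Fin 8 => (Pi.single i 1 : Cn 8))
      (chernForm h 8 0).1).re < 0 ∧
    (evalForm (realFrame fun i : Fin 8 => (Pi.single i 1 : Cn 8))
      (chernForm h 8 0).1).im = 0 := by
  obtain ⟨X, h, h1, h2, h3, h4, h5⟩ := exists_local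
  have h6 := (Complex.lt_def.1 h5).1
  have h7 := (Complex.lt_def.1 h5).2
  rw [Complex.zero_re] at h6
  rw [Complex.zero_im] at h7
  exact ⟨X, h, h1, h2, h3, h4, not_positive_of_neg _ h6, h6, h7⟩

end Pool.Agent.Results.MP_2e24f1_ag.Rank8Counterexample
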